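import Pool.Agent.Lib_helper74.CKF.Defs

/-! # Security of permutations against larger time (MP_5d94c0_lc) -/

set_option autoImplicit false

namespace Pool.Agent.APT

open Pool.Agent.CK

/-- Security of `G`, `F` against probabilistic time `n ^ O(g(n))` with `O(g(n) log n)` bits of
advice: let `c` be a program, `e` a number, `n` large, `v` an advice string of length at most
`e * g(n) * log n`, and `l`, `t ≤ n ^ (e * g(n))`.  For at most a fraction `1 / n ^ (e * g(n))` of
all `(td, x, w)`, where `td` and `x` have length `n` and `w` is a string of `l` random bits, the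
output of `c` with oracle `O` on the input `G(td) F(G(td) x)` and `v w` after `t` steps is `x`. -/
def SecureTime (g : ℕ → ℕ) (O : Lang) (G F : List Bool → List Bool) : Prop :=
  ∀ (c : Cmd) (e : ℕ), ∀ᶠ n : ℕ in Filter.atTop, ∀ v : List Bool,
    v.length ≤ e * g n * Nat.log 2 n → ∀ l ≤ n ^ (e * g n), ∀ t ≤ n ^ (e * g n),
      n ^ (e * g n) * Nat.card {p : List Bool × List Bool × List Bool // p.1.length = n ∧
        p.2.1.length = n ∧ p.2.2.length = l ∧
        (run O c (G p.1 ++ F (G p.1 ++ p.2.1)) (v ++ p.2.2) t).2 0 = p.2.1} ≤ 4 ^ n * 2 ^ l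

end Pool.Agent.APT
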