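import Pool.Agent.Lib_helper78.APT.Choice

/-!
# Existence of the junk and the secret sequence (MP_5d94c0_lc)
-/

set_option autoImplicit false
set_option linter.unusedSectionVars false

namespace Pool.Agent.APT

open Pool.Agent.CK Pool.Agent.TD Pool.Agent.TPR Pool.Agent.CKP Pool.Agent.PSL Pool.Agent.AEC

open Pool.Agent.APS

open Pool.Agent.PCW (N N_mono N_lt N_le_iff N_pos N_two N_succ rr rr_mono rr_le_N rr_ge k_lt_N)

/-- the `i`-th test of the password `u` at scale `k` -/
def tst (u : List Bool) (k i : ℕ) : List Bool :=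
  qA u ++ (List.replicate (N k) false ++ List.replicate i true)

theorem qA_len (u : List Bool) : (qA u).length ≤ 4 * u.length + 3 := by
  unfold qA
  rw [D.enc_length]
  have := size_bits u
  simp only [D.size]
  omega

theorem tst_len (u : List Bool) (k i : ℕ) :
    N k ≤ (tst u k i).length ∧ (tst u k i).length ≤ 4 * u.length + 3 + N k + i := by
  have := qA_len u
  unfold tst
  rw [List.length_append, List.length_append, List.length_replicate, List.length_replicate]
  omega

theorem tst_inj (u : List Bool) (k : ℕ) {i i' : ℕ} (h : tst u k i = tst u k i') : i = i' := by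
  have h1 := congrArg List.length h
  unfold tst at h1
  simp only [List.length_append, List.length_replicate] at h1
  omega

/-- some string passes all tests by chance -/
def Wt (b : ℕ → ℕ) (k : ℕ) (ω : Lang) : Prop :=
  ∃ u : List Bool, u.length = rr b k ∧ ∀ i < 2 * rr b k + 3, jk ω (tst u k i) = true

open Classical in
theorem wt_card {b : ℕ → ℕ} (hmono : Monotone b) (hb : ∀ k, rr b k ≤ 4 * N k) {k L : ℕ}
    (hL : len k ≤ L) : 2 ^ (k + 3) * ((Finset.univ.filter fun ω : CL L → Bool =>
      Wt b k (ov L ω)).card : ℝ) ≤ Fintype.card (CL L → Bool) := by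
  set R := rr b k with hR
  have hRN : R ≤ 4 * N k := hb k
  have hk : k ≤ R := rr_ge b k
  set B : X R → Finset (CL L → Bool) := fun u => Finset.univ.filter fun ω : CL L → Bool =>
    ∀ a : Fin (2 * R + 3), ov L ω (true :: tst u.1 k a.1) = true with hB
  have h1 : ∀ u : X R, 2 ^ (2 * R + 3) * ((B u).card : ℝ) ≤ Fintype.card (CL L → Bool) := by
    intro u
    have h2 := count_true (ι := fun a : Fin (2 * R + 3) => true :: tst u.1 k a.1) (L := L)
      (fun a a' haa => Fin.ext (tst_inj u.1 k (List.cons.inj haa).2)) (fun a => by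
        have g1 := (tst_len u.1 k a.1).2
        have g2 := a.2
        have g3 := u.2
        unfold len at hL
        rw [List.length_cons]
        omega)
    rw [Fintype.card_fin] at h2
    rw [hB]
    convert h2
  have hsub : (Finset.univ.filter fun ω : CL L → Bool => Wt b k (ov L ω)) ⊆
      (Finset.univ : Finset (X R)).biUnion B := by
    intro ω hω
    rw [Finset.mem_filter] at hω
    obtain ⟨_, u, hu, h⟩ := hω
    refine Finset.mem_biUnion.2 ⟨⟨u, hu⟩, Finset.mem_univ _, ?_⟩
    rw [hB, Finset.mem_filter]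
    exact ⟨Finset.mem_univ _, fun a => h a.1 a.2⟩
  have h2 : ((Finset.univ.filter fun ω : CL L → Bool => Wt b k (ov L ω)).card : ℝ) ≤
      ∑ u : X R, ((B u).card : ℝ) := by
    rw [← Nat.cast_sum]
    exact_mod_cast (Finset.card_le_card hsub).trans Finset.card_biUnion_le
  have hcardX : (Fintype.card (X R) : ℝ) = 2 ^ R := by
    rw [card_X_TD]
    norm_num
  have h3 : 2 ^ (2 * R + 3) * ((Finset.univ.filter fun ω : CL L → Bool =>
      Wt b k (ov L ω)).card : ℝ) ≤ 2 ^ R * Fintype.card (CL L → Bool) := by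
    calc _ ≤ 2 ^ (2 * R + 3) * ∑ u : X R, ((B u).card : ℝ) := by gcongr
      _ = ∑ u : X R, 2 ^ (2 * R + 3) * ((B u).card : ℝ) := by rw [Finset.mul_sum]
      _ ≤ ∑ _u : X R, (Fintype.card (CL L → Bool) : ℝ) := Finset.sum_le_sum fun u _ => h1 u
      _ = _ := by rw [Finset.sum_const, Finset.card_univ, nsmul_eq_mul, hcardX]
  have h4 : (2 : ℝ) ^ (2 * R + 3) = 2 ^ R * 2 ^ (R + 3) := by rw [← pow_add]; congr 1; ring
  rw [h4, mul_assoc] at h3
  have h5 := le_of_mul_le_mul_left h3 (by positivity)
  have h6 : (2 : ℝ) ^ (k + 3) ≤ 2 ^ (R + 3) := pow_le_pow_right₀ (by norm_num) (by omega)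
  exact le_trans (mul_le_mul_of_nonneg_right h6 (Nat.cast_nonneg _)) h5

section

variable {ext : List Bool → Finset (List Bool)} (hext : Adm ext)

include hext in
/-- **The junk and the secret sequence.** -/
theorem exists_om {Y : Lang} {b : ℕ → ℕ} {S : Sec} (hmono : Monotone b) (hb : ∀ k, rr b k ≤ 4 * N k)
    (hb2 : ∀ j, 4 ≤ j → 20 * ((b j + 3) * 2 ^ (j + 2)) ≤ N (j + 1))
    {j0 : ℕ} (hj0 : 4 ≤ j0) (hsec : ∀ n, N (j0 + 1) ≤ n → SecN hext Y (rr b) S n) :
    ∃ ω : Lang, (∀ j, j0 ≤ j → ¬ Bad Y b S ext j ω) ∧ ∀ k, ¬ Wt b k ω := by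
  classical
  suffices key : ∃ ω : Lang, ∀ j, ¬ ((j0 ≤ j ∧ Bad Y b S ext j ω) ∨ Wt b j ω) by
    obtain ⟨ω, hω⟩ := key
    exact ⟨ω, fun j hj hc => hω j (Or.inl ⟨hj, hc⟩), fun k hc => hω k (Or.inr hc)⟩
  refine exists_omega (fun j ω => (j0 ≤ j ∧ Bad Y b S ext j ω) ∨ Wt b j ω) len ?_ ?_
  · rintro j ω ω' h (⟨hj, c, e, n, v, l, t, h1, h2, h3, h4, h5, h6, h7, h8⟩ | ⟨u, hu, h1⟩)
    · left
      refine ⟨hj, c, e, n, v, l, t, h1, h2, h3, h4, h5, h6, h7, ?_⟩
      have hbj := hb2 j (by omega)
      obtain ⟨g1, g2, g3⟩ := small_v (E := e) hbj h2 le_rfl h3 h4 h5 h6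
      have g4 : t ≤ Tn n := by
        refine h7.trans ((Nat.pow_le_pow_left h4.le e).trans
          ((Nat.pow_le_pow_right (N_pos _) ?_).trans (num_T hbj h3)))
        omega
      rw [← sx_congr hext hmono hb g3 g4 (fun s hs => h s ?_)]
      · exact h8
      · have g5 := mqG_mono h4.le
        unfold len
        omega
    · right
      refine ⟨u, hu, fun i hi => ?_⟩
      rw [← h1 i hi]
      refine (h _ ?_).symm
      have g1 := (tst_len u j i).2
      have g2 := hb j
      unfold len
      rw [List.length_cons]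
      omega
  · intro j L hL
    have h1 := wt_card hmono hb hL
    by_cases hj : j0 ≤ j
    · have h2 := bad_card hext (S := S) (Y := Y) hmono hb (by omega : 4 ≤ j) (hb2 j (by omega))
        (fun n hn => hsec n ((N_mono (by omega)).trans hn)) hL
      have h3 : (Finset.univ.filter fun ω : CL L → Bool =>
          (j0 ≤ j ∧ Bad Y b S ext j (ov L ω)) ∨ Wt b j (ov L ω)) ⊆
          (Finset.univ.filter fun ω : CL L → Bool => Bad Y b S ext j (ov L ω)) ∪
          (Finset.univ.filter fun ω : CL L → Bool => Wt b j (ov L ω)) := by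
        intro ω hω
        rw [Finset.mem_filter] at hω
        rw [Finset.mem_union, Finset.mem_filter, Finset.mem_filter]
        rcases hω.2 with h | h
        · exact Or.inl ⟨Finset.mem_univ _, h.2⟩
        · exact Or.inr ⟨Finset.mem_univ _, h⟩
      have h4 : ((Finset.univ.filter fun ω : CL L → Bool =>
          (j0 ≤ j ∧ Bad Y b S ext j (ov L ω)) ∨ Wt b j (ov L ω)).card : ℝ) ≤
          (Finset.univ.filter fun ω : CL L → Bool => Bad Y b S ext j (ov L ω)).card +
          (Finset.univ.filter fun ω : CL L → Bool => Wt b j (ov L ω)).card := by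
        exact_mod_cast (Finset.card_le_card h3).trans (Finset.card_union_le _ _)
      have e1 : (2 : ℝ) ^ (j + 3) = 2 * 2 ^ (j + 2) := by rw [pow_succ]; ring
      rw [e1] at h1 h2
      have h5 : (0 : ℝ) < 2 ^ (j + 2) := by positivity
      have h6 : 2 ^ (j + 2) * ((Finset.univ.filter fun ω : CL L → Bool =>
          (j0 ≤ j ∧ Bad Y b S ext j (ov L ω)) ∨ Wt b j (ov L ω)).card : ℝ) ≤
          Fintype.card (CL L → Bool) := by nlinarith
      convert h6
    · have h3 : (Finset.univ.filter fun ω : CL L → Bool =>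
          (j0 ≤ j ∧ Bad Y b S ext j (ov L ω)) ∨ Wt b j (ov L ω)) =
          (Finset.univ.filter fun ω : CL L → Bool => Wt b j (ov L ω)) := by
        apply Finset.filter_congr
        intro ω _
        constructor
        · rintro (h | h)
          · exact absurd h.1 hj
          · exact h
        · exact Or.inr
      have h6 : 2 ^ (j + 2) * ((Finset.univ.filter fun ω : CL L → Bool =>
          (j0 ≤ j ∧ Bad Y b S ext j (ov L ω)) ∨ Wt b j (ov L ω)).card : ℝ) ≤
          Fintype.card (CL L → Bool) := by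
        rw [h3]
        refine le_trans ?_ h1
        gcongr
        · norm_num
        · omega
      convert h6

/-! ### the base -/

theorem numTK : NumG Tn Kn 1000 :=
  numG_of (τ := fun n => n / 20) (κ := fun n => n / 5) fun n hn => by
    constructor
    · have key : ∀ q : ℕ, 8 ≤ q → 20 * q + 29 ≤ 2 ^ q := by
        intro q hq
        induction q, hq using Nat.le_induction with
        | base => norm_num
        | succ q hq ih => rw [pow_succ]; omega
      have h1 := key (n / 20) (by omega)
      show n + 10 ≤ 2 ^ (n / 20)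
      omega
    · show 10 + 5 * (n / 20) + n / 5 ≤ n / 2
      omega

theorem exists_jj {n : ℕ} (hn : N 5 ≤ n) : ∃ j, 4 ≤ j ∧ N (j + 1) ≤ n ∧ n < N (j + 2) := by
  have hex : ∃ i, n < N i := ⟨n, k_lt_N n⟩
  set i := Nat.find hex with hi
  have hi1 : n < N i := Nat.find_spec hex
  have hi2 : 5 < i := by
    by_contra hc
    have := N_mono (by omega : i ≤ 5)
    omega
  refine ⟨i - 2, by omega, ?_, ?_⟩
  · have h4 : ¬ n < N (i - 1) := Nat.find_min hex (by omega)
    rw [show i - 2 + 1 = i - 1 by omega]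
    omega
  · rw [show i - 2 + 2 = i by omega]
    exact hi1

theorem secN_of {Y : Lang} {S : Sec} (r : ℕ → ℕ) (h : ∀ n, 1000 ≤ n → ∀ p ∈ IX Tn Kn n,
    ∀ O : Lang, IsClo ext Y (dl p.2) O → ∀ A ∈ Gn hext n, Tn n * sc S n A O < 4 ^ n) {n : ℕ}
    (hn : N 5 ≤ n) : SecN hext Y r S n := by
  intro ω O1 hO1
  obtain ⟨j, hj, h1, h2⟩ := exists_jj hn
  have hA : An n = 64 * N j := by unfold An; rw [jj_eq h1 h2]
  have h4 : N 4 = 65536 := by unfold N; norm_num
  have h5 : N 4 ≤ N j := N_mono hj
  have h6 : N (j + 1) = N j * N j := N_succ j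
  have h7 : 65536 * N j ≤ n := by
    refine le_trans (le_trans (Nat.mul_le_mul_right _ (by omega)) h6.ge) h1
  have hfin : ({p : List Bool | p.length ≤ An n - 1}).Finite := List.finite_length_le Bool _
  have hAn : 0 < An n := by rw [hA]; have := N_pos j; omega
  classical
  set D : Finset Str := hfin.toFinset.filter fun p => HW ext Y r ω p = true with hD
  have hdl : HL ext Y r (An n) ω = dl D := by
    funext p
    unfold dl
    rw [Bool.eq_iff_iff, decide_eq_true_iff, hD, Finset.mem_filter, Set.Finite.mem_toFinset]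
    unfold HL
    rw [Bool.and_eq_true, decide_eq_true_iff]
    constructor
    · rintro ⟨g1, g2⟩
      exact ⟨show p.length ≤ An n - 1 by omega, g2⟩
    · rintro ⟨g1, g2⟩
      have g1' : p.length ≤ An n - 1 := g1
      exact ⟨by omega, g2⟩
  rw [hdl] at hO1
  refine h n (by omega) ([], D) ⟨Nat.zero_le _, ?_, ?_⟩ O1 hO1
  · have g1 : D.card ≤ 2 ^ An n := by
      refine (Finset.card_filter_le _ _).trans ?_
      have g2 := (TD.card_str (An n - 1)).2
      rw [show An n - 1 + 1 = An n by omega] at g2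
      rwa [Set.ncard_eq_toFinset_card _ hfin] at g2
    refine g1.trans (Nat.pow_le_pow_right (by norm_num) ?_)
    rw [hA, Nat.le_div_iff_mul_le (by norm_num)]
    omega
  · intro p hp
    rw [hD, Finset.mem_filter, Set.Finite.mem_toFinset] at hp
    have g1 : p.length ≤ An n - 1 := hp.1
    unfold mqG
    omega

end

end Pool.Agent.APT
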