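import Pool.Agent.Lib_helper78.APT.Upper
import Pool.Agent.Lib_helper78.APT.Defs

/-!
# The main theorem (MP_5d94c0_lc)
-/

set_option autoImplicit false
set_option linter.unusedSectionVars false

namespace Pool.Agent.APT

open Pool.Agent.CK Pool.Agent.TD Pool.Agent.CKP Pool.Agent.AEC Pool.Agent.APS

open Pool.Agent.PCW (N N_mono N_pos N_two N_succ rr rr_mono k_lt_N RT LL SP SecurePPT
  FewQueriesReducible PairApproximable turing_compl not_collapse collapse_of_complete)

/-- the number of successes -/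
theorem card_le_sx (S : Sec) (O : Lang) (n : ℕ) (c : Cmd) (v : Str) (l t : ℕ) :
    (Nat.card {p : List Bool × List Bool × List Bool // p.1.length = n ∧
        p.2.1.length = n ∧ p.2.2.length = l ∧
        (run O c (GG S p.1 ++ TD.FF S (GG S p.1 ++ p.2.1)) (v ++ p.2.2) t).2 0 = p.2.1} : ℝ) ≤
      APS.sx S O n c v l t := by
  classical
  have h1 : APS.sx S O n c v l t = ((Finset.univ.filter fun z : X l × X (2 * n) =>
      (run O c z.2.1 (v ++ z.1.1) t).2 0 = vv S n z.2).card : ℝ) := by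
    unfold APS.sx
    rw [Finset.card_filter, Nat.cast_sum, Fintype.sum_prod_type]
    refine Finset.sum_congr rfl fun w _ => Finset.sum_congr rfl fun x _ => ?_
    split_ifs <;> simp
  rw [h1]
  norm_cast
  have h2 : (Finset.univ.filter fun z : X l × X (2 * n) =>
      (run O c z.2.1 (v ++ z.1.1) t).2 0 = vv S n z.2).card = Nat.card {z : X l × X (2 * n) //
      (run O c z.2.1 (v ++ z.1.1) t).2 0 = vv S n z.2} := by
    rw [Nat.card_eq_fintype_card, Fintype.card_subtype]
  rw [h2]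
  apply Nat.card_le_card_of_injective (fun p : {p : List Bool × List Bool × List Bool //
      p.1.length = n ∧ p.2.1.length = n ∧ p.2.2.length = l ∧
      (run O c (GG S p.1 ++ TD.FF S (GG S p.1 ++ p.2.1)) (v ++ p.2.2) t).2 0 = p.2.1} =>
      (⟨(⟨p.1.2.2, p.2.2.2.1⟩, eC S n (⟨p.1.1, p.2.1⟩, ⟨p.1.2.1, p.2.2.1⟩)), by
        rw [eC_val, vv_eC]
        exact p.2.2.2.2⟩ : {z : X l × X (2 * n) //
      (run O c z.2.1 (v ++ z.1.1) t).2 0 = vv S n z.2}))
  intro p p' hpp
  have g := Subtype.ext_iff.1 hpp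
  simp only [Prod.mk.injEq, Subtype.mk.injEq] at g
  have g2 := (eC S n).injective g.2
  simp only [Prod.mk.injEq, Subtype.mk.injEq] at g2
  apply Subtype.ext
  exact Prod.ext g2.1 (Prod.ext g2.2 g.1)

section

variable {ext : List Bool → Finset (List Bool)} (hext : Adm ext)

/-- security of the trapdoor permutations -/
theorem secure_OW {Y : Lang} {b g : ℕ → ℕ} {S : Sec}
    (hbg : ∀ e : ℕ, ∀ᶠ j in Filter.atTop, ∀ n < N (j + 2), 5 * (e * g n) + 3 ≤ b j)
    (hg1 : ∀ n, 1 ≤ g n) {ω : Lang} {j0 : ℕ} (h : ∀ j, j0 ≤ j → ¬ Bad Y b S ext j ω) :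
    SecureTime g (OW ext Y (rr b) ω) (GG S) (TD.FF S) := by
  intro c e
  obtain ⟨J, hJ⟩ := Filter.eventually_atTop.1 ((hbg e).and (hbg (Encodable.encode c)))
  filter_upwards [Filter.eventually_ge_atTop (N (J + j0 + 1))] with n h3 v hv l hl t ht
  -- the scale of `n`
  obtain ⟨j, hj1, hj2⟩ : ∃ j, N (j + 1) ≤ n ∧ n < N (j + 2) := by
    have hex : ∃ i, n < N i := ⟨n, k_lt_N n⟩
    set i := Nat.find hex with hi
    have hi1 : n < N i := Nat.find_spec hex
    have hi2 : J + j0 + 1 < i := by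
      by_contra hc
      have := N_mono (by omega : i ≤ J + j0 + 1)
      omega
    refine ⟨i - 2, ?_, ?_⟩
    · have h4 : ¬ n < N (i - 1) := Nat.find_min hex (by omega)
      rw [show i - 2 + 1 = i - 1 by omega]
      omega
    · rw [show i - 2 + 2 = i by omega]
      exact hi1
  have hjJ : J + j0 ≤ j := by
    by_contra hc
    have := N_mono (by omega : j + 2 ≤ J + j0 + 1)
    omega
  obtain ⟨hbj, hbc⟩ := hJ j (by omega)
  have he1 := hbj n hj2
  have hc1 : Encodable.encode c ≤ b j := by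
    have h1 := hbc n hj2
    have h2 := Nat.mul_le_mul_left (Encodable.encode c) (hg1 n)
    omega
  have h4 := h j (by omega)
  have h5 : ¬ (4 ^ n * 2 ^ l < (n : ℝ) ^ (e * g n) * APS.sx S (OW ext Y (rr b) ω) n c v l t) :=
    fun hc => h4 ⟨c, e * g n, n, v, l, t, hc1, he1, hj1, hj2, hv, hl, ht, hc⟩
  have h6 := card_le_sx S (OW ext Y (rr b) ω) n c v l t
  have h7 : (n : ℝ) ^ (e * g n) * (Nat.card {p : List Bool × List Bool × List Bool //
      p.1.length = n ∧ p.2.1.length = n ∧ p.2.2.length = l ∧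
      (run (OW ext Y (rr b) ω) c (GG S p.1 ++ TD.FF S (GG S p.1 ++ p.2.1)) (v ++ p.2.2) t).2 0 =
        p.2.1} : ℝ) ≤ 4 ^ n * 2 ^ l :=
    (mul_le_mul_of_nonneg_left h6 (by positivity)).trans (not_lt.1 h5)
  exact_mod_cast h7

/-- the special case of polynomial time -/
theorem SecureTime.ppt {g : ℕ → ℕ} (hg1 : ∀ n, 1 ≤ g n) {O : Lang}
    {G F : List Bool → List Bool} (h : SecureTime g O G F) : SecurePPT O G F := by
  intro c e
  filter_upwards [h c e, Filter.eventually_ge_atTop 1] with n hn h1 v hv l hl t ht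
  have h2 : e ≤ e * g n := Nat.le_mul_of_pos_right _ (hg1 n)
  have h3 : n ^ e ≤ n ^ (e * g n) := Nat.pow_le_pow_right h1 h2
  have h4 := hn v (hv.trans (Nat.mul_le_mul_right _ h2)) l (hl.trans h3) t
    (ht.trans h3)
  exact (Nat.mul_le_mul_right _ h3).trans h4

include hext in
/-- The main theorem, for closed oracles. -/
theorem main6 (R : Lang) (g r s : ℕ → ℕ) (hg : Monotone g) (hg1 : ∀ n, 1 ≤ g n)
    (hr : ∀ a : ℕ, ∀ᶠ n in Filter.atTop, a * (g (n ^ 2) * Nat.log 2 n) ≤ min (r n) n)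
    (hs : ∀ a : ℕ, ∀ᶠ n in Filter.atTop, a * (g (n ^ a) * Nat.log 2 n) ≤ s n) :
    ∃ (Y H O L S : Lang) (G F K : List Bool → List Bool), IsClo ext Y H O ∧
      InP O R ∧ TD.TrapdoorPermutations O G F K ∧ SecureTime g O G F ∧
      PCL.PSelective O L ∧ TuringComplete O L ∧ ¬ InP O L ∧
      (∀ᶠ n : ℕ in Filter.atTop,
        Nat.card {z : List Bool // z.length ≤ n ∧ L z = true} ≤ 2 ^ r n) ∧
      (∀ D : Lang, ((∃ j : ℕ, PSL.SigmaP O j D) ∨ InPSPACE O D) →
        FewQueriesReducible O D L s ∧ InUP O D ∧ InUP O fun x => !D x) ∧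
      PairApproximable O S ∧ TuringComplete O S ∧
      (∀ᶠ n : ℕ in Filter.atTop,
        Nat.card {z : List Bool // z.length ≤ n ∧ S z = true} ≤ r n ^ 2) := by
  obtain ⟨b, β, hmono, hb, hb2, htend, hcnd, hden, hbg⟩ := exists_bx hg hg1 hr hs
  obtain ⟨Pt, hP⟩ := AFF.exists_genP (TT ext)
  obtain ⟨Sc, Jk, hS⟩ := secretsT hext (join R (RT b)) Pt hP (famG hext) numTK
  set Y := join (AFF.emb Pt (pX Sc) Jk) (join R (RT b)) with hY
  obtain ⟨ω, hω1, hω2⟩ := exists_om hext (Y := Y) (S := Sc) hmono hb hb2 le_rfl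
    (fun n hn => secN_of hext (rr b) hS hn)
  set O := OW ext Y (rr b) ω with hO
  have hclo := OW_clo hext Y (rr b) ω
  have hX : PTime O Y := (PTime.ask (O := O) (PTime.cons (PTime.const false)
    (PTime.cons (PTime.const false) (PTime.id (α := List Bool))))).of_eq fun v => hclo.left v
  have hR : PTime O R := (hX.comp (PTime.cons (PTime.const true)
    (PTime.cons (PTime.const false) (PTime.id (α := List Bool))))).of_eq fun _ => rfl
  have hRT : PTime O (RT b) := (hX.comp (PTime.cons (PTime.const true)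
    (PTime.cons (PTime.const true) (PTime.id (α := List Bool))))).of_eq fun _ => rfl
  have hT' : TD.TrapdoorPermutations O (GG Sc) (TD.FF Sc) (HH Sc) := tdp_clo hclo
  have hS' : SecureTime g O (GG Sc) (TD.FF Sc) := secure_OW hbg hg1 hω1
  have hW := vw_OW hext hmono hb hRT hω2
  have hC : TuringComplete O (LL b (rh ω)) := vw_complete hW
  refine ⟨Y, HW ext Y (rr b) ω, O, LL b (rh ω), SP b (rh ω), GG Sc, TD.FF Sc, HH Sc, hclo,
    inP_of hR, hT', hS', LL_selective hmono hb hRT (rh ω), hC,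
    fun hL => not_collapse hT' (hS'.ppt hg1) (collapse_of_complete hC hL),
    LL_density hmono hb htend hden, fun D hD => ?_, SP_pairs hmono hb hRT (rh ω),
    vw_SP hW, SP_sparse hmono hb htend hden (rh ω)⟩
  have h1 : TuringReducible O D (LL b (rh ω)) := by
    rcases hD with ⟨j, hD⟩ | hD
    · exact ph_turing hmono hb hRT hC j D hD
    · exact vw_space hW hD
  exact ⟨few_turing hmono hb htend hcnd hRT h1, vw_up hW h1, vw_up hW (turing_compl h1)⟩

end

end Pool.Agent.APT
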