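import Pool.Agent.Lib_helper78.PCW.A

/-!
# Parameters for the world with stronger permutations (MP_5d94c0_lc)
-/

set_option autoImplicit false

namespace Pool.Agent.APT

open Pool.Agent.PCW (N N_mono N_lt N_pos N_two N_succ k_lt_N rr rr_le rr_mono)

/-- the condition on the length `r` of the password at scale `k` -/
def CndX (s : ℕ → ℕ) (B r k : ℕ) : Prop :=
  ∀ m e : ℕ, e ≤ B → N k ≤ (m + 2) ^ e → r + 1 ≤ s m

/-- the condition on the parameter `B` at scale `k` -/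
def Cn (r s g : ℕ → ℕ) (B k : ℕ) : Prop :=
  CndX s B ((B * g (N (k + 1)) + 1) * 2 ^ (k + 2)) k ∧
    (∀ n, N k ≤ n → (B * g (N (k + 1)) + 1) * 2 ^ (k + 2) + 1 ≤ r n) ∧
    20 * ((B * g (N (k + 2)) + 3) * 2 ^ (k + 2)) ≤ N (k + 1)

theorem cn_ev {r s g : ℕ → ℕ} (hg : Monotone g) (hg1 : ∀ n, 1 ≤ g n)
    (hr : ∀ a : ℕ, ∀ᶠ n in Filter.atTop, a * (g (n ^ 2) * Nat.log 2 n) ≤ min (r n) n)
    (hs : ∀ a : ℕ, ∀ᶠ n in Filter.atTop, a * (g (n ^ a) * Nat.log 2 n) ≤ s n) (B : ℕ) :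
    ∃ K, ∀ k ≥ K, Cn r s g B k := by
  obtain ⟨M1, hM1⟩ := Filter.eventually_atTop.1 (hs (16 * (B + 1) ^ 2))
  obtain ⟨M2, hM2⟩ := Filter.eventually_atTop.1 (hr (40 * (B + 3)))
  refine ⟨(M1 + 2 + 2) ^ B + M2, fun k hk => ⟨fun m e he h => ?_, fun n hn => ?_, ?_⟩⟩
  · have h1 : (M1 + 2 + 2) ^ B < N k := lt_of_le_of_lt (by omega) (k_lt_N k)
    have h2 : (m + 2) ^ e ≤ (m + 2) ^ B := Nat.pow_le_pow_right (by omega) he
    have h3 : (M1 + 2 + 2) ^ B < (m + 2) ^ B := lt_of_lt_of_le h1 (h.trans h2)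
    have h4 : M1 + 2 + 2 < m + 2 := lt_of_pow_lt_pow_left₀ B (Nat.zero_le _) h3
    have h5 := hM1 m (by omega)
    set l := Nat.log 2 m with hl
    have hl1 : 1 ≤ l := by
      rw [hl]
      calc 1 = Nat.log 2 2 := by norm_num
        _ ≤ Nat.log 2 m := Nat.log_mono_right (by omega)
    have h6 : m + 2 < 2 ^ (2 * l + 2) := by
      have h7 : m < 2 ^ (l + 1) := Nat.lt_pow_succ_log_self (by norm_num) m
      have h8 : 2 ^ (l + 1) + 2 ^ (l + 1) ≤ 2 ^ (2 * l + 2) := by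
        have : 2 ^ (l + 1) + 2 ^ (l + 1) = 2 ^ (l + 2) := by ring
        rw [this]
        exact Nat.pow_le_pow_right (by norm_num) (by omega)
      have h9 : 2 ≤ 2 ^ (l + 1) := by
        calc 2 = 2 ^ 1 := by norm_num
          _ ≤ _ := Nat.pow_le_pow_right (by norm_num) (by omega)
      omega
    have h7 : N k < 2 ^ ((2 * l + 2) * B + 1) := by
      refine lt_of_le_of_lt (h.trans h2) ?_
      calc (m + 2) ^ B ≤ (2 ^ (2 * l + 2)) ^ B := Nat.pow_le_pow_left h6.le B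
        _ = 2 ^ ((2 * l + 2) * B) := by rw [← pow_mul]
        _ < _ := Nat.pow_lt_pow_right (by norm_num) (by omega)
    have h8 : 2 ^ k < (2 * l + 2) * B + 1 := (Nat.pow_lt_pow_iff_right (by norm_num)).1 h7
    have h9 : (2 * l + 2) * B ≤ 4 * l * B := Nat.mul_le_mul_right _ (by omega)
    have h10 : 2 ^ k ≤ 4 * l * B := by omega
    -- the value of `g`
    have h11 : N (k + 1) ≤ m ^ (16 * (B + 1) ^ 2) := by
      have e1 : N (k + 1) = N k ^ 2 := by
        rw [N_succ]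
        ring
      have e2 : m + 2 ≤ m ^ 2 := by nlinarith
      rw [e1]
      calc N k ^ 2 ≤ ((m + 2) ^ B) ^ 2 := Nat.pow_le_pow_left (h.trans h2) 2
        _ ≤ ((m ^ 2) ^ B) ^ 2 := Nat.pow_le_pow_left (Nat.pow_le_pow_left e2 B) 2
        _ = m ^ (4 * B) := by rw [← pow_mul, ← pow_mul]; congr 1; ring
        _ ≤ _ := Nat.pow_le_pow_right (by omega) (by nlinarith)
    have h12 := hg h11
    have h13 := hg1 (N (k + 1))
    set G := g (N (k + 1)) with hG
    have h14 : 16 * (B + 1) ^ 2 * (G * l) ≤ s m :=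
      le_trans (Nat.mul_le_mul_left _ (Nat.mul_le_mul_right _ h12)) h5
    have h15 : B * G + 1 ≤ (B + 1) * G := by nlinarith
    have h16 : 1 ≤ G * l := Nat.mul_pos h13 hl1
    calc (B * G + 1) * 2 ^ (k + 2) + 1 = 4 * (B * G + 1) * 2 ^ k + 1 := by ring
      _ ≤ 4 * ((B + 1) * G) * (4 * l * B) + 1 := by gcongr
      _ = 16 * ((B + 1) * B) * (G * l) + 1 := by ring
      _ ≤ 16 * (B + 1) ^ 2 * (G * l) := by nlinarith
      _ ≤ s m := h14
  · have h1 : M2 ≤ n := by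
      have := k_lt_N k
      omega
    have h2 := (hM2 _ h1).trans (min_le_left _ _)
    have h3 : 2 ^ k ≤ Nat.log 2 n := by
      calc 2 ^ k = Nat.log 2 (N k) := (Nat.log_pow (by norm_num) _).symm
        _ ≤ _ := Nat.log_mono_right hn
    have h4 : N (k + 1) ≤ n ^ 2 := by
      rw [N_succ, pow_two]
      exact Nat.mul_le_mul hn hn
    have h5 := hg h4
    have h6 := hg1 (N (k + 1))
    set G := g (N (k + 1)) with hG
    have h7 : B * G + 1 ≤ (B + 1) * G := by nlinarith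
    have h8 : 1 ≤ G * 2 ^ k := Nat.mul_pos h6 (by positivity)
    calc (B * G + 1) * 2 ^ (k + 2) + 1 = 4 * (B * G + 1) * 2 ^ k + 1 := by ring
      _ ≤ 4 * ((B + 1) * G) * 2 ^ k + 1 := by gcongr
      _ = (4 * B + 4) * (G * 2 ^ k) + 1 := by ring
      _ ≤ 40 * (B + 3) * (G * 2 ^ k) := by nlinarith
      _ ≤ 40 * (B + 3) * (g (n ^ 2) * Nat.log 2 n) := by gcongr
      _ ≤ _ := h2
  · have h1 : M2 ≤ N (k + 1) := by
      have := k_lt_N (k + 1)
      omega
    have h2 := (hM2 _ h1).trans (min_le_right _ _)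
    have h3 : Nat.log 2 (N (k + 1)) = 2 ^ (k + 1) := Nat.log_pow (by norm_num) _
    have h4 : N (k + 2) = N (k + 1) ^ 2 := by
      rw [show k + 2 = (k + 1) + 1 by ring, N_succ, ← pow_two]
    rw [h3, ← h4] at h2
    have h6 := hg1 (N (k + 2))
    set G := g (N (k + 2)) with hG
    have h7 : B * G + 3 ≤ (B + 3) * G := by nlinarith
    calc 20 * ((B * G + 3) * 2 ^ (k + 2)) = 40 * (B * G + 3) * 2 ^ (k + 1) := by ring
      _ ≤ 40 * ((B + 3) * G) * 2 ^ (k + 1) := by gcongr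
      _ = 40 * (B + 3) * (G * 2 ^ (k + 1)) := by ring
      _ ≤ _ := h2

theorem rr_zero {b : ℕ → ℕ} {k : ℕ} (h : ∀ j < k, b j = 0) : rr b k + 4 = 4 * 2 ^ k := by
  induction k with
  | zero => rfl
  | succ k ih =>
    have h1 := ih fun j hj => h j (by omega)
    rw [rr, h k (by omega)]
    have h2 : 2 ^ (k + 2) = 4 * 2 ^ k := by ring
    have h3 : 2 ^ (k + 1) = 2 * 2 ^ k := by ring
    omega

/-- The parameters. -/
theorem exists_bx {r s g : ℕ → ℕ} (hg : Monotone g) (hg1 : ∀ n, 1 ≤ g n)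
    (hr : ∀ a : ℕ, ∀ᶠ n in Filter.atTop, a * (g (n ^ 2) * Nat.log 2 n) ≤ min (r n) n)
    (hs : ∀ a : ℕ, ∀ᶠ n in Filter.atTop, a * (g (n ^ a) * Nat.log 2 n) ≤ s n) :
    ∃ b β : ℕ → ℕ, Monotone b ∧ (∀ k, rr b k ≤ 4 * N k) ∧
      (∀ j, 4 ≤ j → 20 * ((b j + 3) * 2 ^ (j + 2)) ≤ N (j + 1)) ∧
      Filter.Tendsto β Filter.atTop Filter.atTop ∧ (∀ k, CndX s (β k) (rr b k) k) ∧
      (∀ k n, 1 ≤ β k → N k ≤ n → rr b k + 1 ≤ r n) ∧
      ∀ e : ℕ, ∀ᶠ j in Filter.atTop, ∀ n < N (j + 2), 5 * (e * g n) + 3 ≤ b j := by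
  classical
  set β : ℕ → ℕ := fun k => Nat.findGreatest
    (fun B => B = 0 ∨ (5 ≤ k ∧ ∀ k' ≥ k, Cn r s g B k')) k with hβ
  have hgood : ∀ k, β k = 0 ∨ (5 ≤ k ∧ ∀ k' ≥ k, Cn r s g (β k) k') := by
    intro k
    exact Nat.findGreatest_spec (P := fun B => B = 0 ∨ (5 ≤ k ∧ ∀ k' ≥ k, Cn r s g B k'))
      (Nat.zero_le k) (Or.inl rfl)
  have hmonoβ : Monotone β := by
    intro k k' hk
    apply Nat.le_findGreatest ((Nat.findGreatest_le k).trans hk)
    rcases hgood k with h | ⟨h1, h2⟩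
    · exact Or.inl h
    · exact Or.inr ⟨h1.trans hk, fun k'' hk'' => h2 k'' (hk.trans hk'')⟩
  have htend : Filter.Tendsto β Filter.atTop Filter.atTop := by
    rw [Filter.tendsto_atTop]
    intro B
    obtain ⟨K, hK⟩ := cn_ev hg hg1 hr hs B
    filter_upwards [Filter.eventually_ge_atTop (K + B + 5)] with k hk
    exact Nat.le_findGreatest (by omega)
      (Or.inr ⟨by omega, fun k' hk' => hK k' (by omega)⟩)
  set b : ℕ → ℕ := fun k => β k * g (N (k + 2)) with hb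
  have hmono : Monotone b := fun k k' hk => Nat.mul_le_mul (hmonoβ hk) (hg (N_mono (by omega)))
  have hsmall : ∀ j, j < 5 → b j = 0 := by
    intro j hj
    rcases hgood j with h | ⟨h, _⟩
    · show β j * _ = 0
      rw [h, Nat.zero_mul]
    · omega
  have h20 : ∀ j, 4 ≤ j → 20 * ((b j + 3) * 2 ^ (j + 2)) ≤ N (j + 1) := by
    intro j hj
    rcases hgood j with h | ⟨_, h⟩
    · have e : b j = 0 := by
        show β j * _ = 0
        rw [h, Nat.zero_mul]
      rw [e]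
      have key : ∀ j, 4 ≤ j → 6 + (j + 2) ≤ 2 ^ (j + 1) := by
        intro j hj
        induction j, hj using Nat.le_induction with
        | base => norm_num
        | succ j hj ih => rw [pow_succ]; omega
      calc 20 * ((0 + 3) * 2 ^ (j + 2)) ≤ 2 ^ 6 * 2 ^ (j + 2) := by
            have : 0 < 2 ^ (j + 2) := by positivity
            omega
        _ = 2 ^ (6 + (j + 2)) := by rw [← pow_add]
        _ ≤ 2 ^ 2 ^ (j + 1) := Nat.pow_le_pow_right (by norm_num) (key j hj)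
        _ = N (j + 1) := rfl
    · exact (h j le_rfl).2.2
  have hrr : ∀ k, rr b k ≤ (β k * g (N (k + 1)) + 1) * 2 ^ (k + 2) := by
    intro k
    cases k with
    | zero => exact Nat.zero_le _
    | succ j =>
      rw [rr]
      have h1 := rr_le hmono j
      have h2 : (b j + 1) * 2 ^ (j + 2) + (b j + 1) * 2 ^ (j + 2) =
          (β j * g (N (j + 2)) + 1) * 2 ^ (j + 1 + 2) := by
        show (β j * g (N (j + 2)) + 1) * 2 ^ (j + 2) + (β j * g (N (j + 2)) + 1) * 2 ^ (j + 2) = _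
        ring
      have h3 : (β j * g (N (j + 2)) + 1) * 2 ^ (j + 1 + 2) ≤
          (β (j + 1) * g (N (j + 1 + 1)) + 1) * 2 ^ (j + 1 + 2) :=
        Nat.mul_le_mul_right _ (Nat.add_le_add_right
          (Nat.mul_le_mul_right _ (hmonoβ (Nat.le_succ j))) 1)
      omega
  refine ⟨b, β, hmono, ?_, h20, htend, ?_, ?_, ?_⟩
  · intro k
    by_cases hk : k ≤ 5
    · have h1 := rr_zero (b := b) (k := k) fun j hj => hsmall j (by omega)
      have h2 : 2 ^ k < N k := Nat.lt_two_pow_self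
      omega
    · obtain ⟨j, rfl⟩ : ∃ j, k = j + 1 := ⟨k - 1, by omega⟩
      have h1 := h20 j (by omega)
      have h2 := rr_le hmono j
      rw [rr]
      have h3 : (b j + 3) * 2 ^ (j + 2) = (b j + 1) * 2 ^ (j + 2) + 2 * 2 ^ (j + 2) := by ring
      omega
  · intro k m e he h
    rcases hgood k with h0 | ⟨_, h0⟩
    · rw [h0] at he
      have : e = 0 := by omega
      rw [this, pow_zero] at h
      have := N_two k
      omega
    · have h1 := (h0 k le_rfl).1 m e he h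
      have h2 := hrr k
      omega
  · intro k n hk hn
    rcases hgood k with h0 | ⟨_, h0⟩
    · omega
    · have h1 := (h0 k le_rfl).2.1 n hn
      have h2 := hrr k
      omega
  · intro e
    filter_upwards [Filter.tendsto_atTop.1 htend (5 * e + 3)] with j hj n hn
    have h1 := hg hn.le
    have h2 := hg1 (N (j + 2))
    show 5 * (e * g n) + 3 ≤ β j * g (N (j + 2))
    calc 5 * (e * g n) + 3 ≤ (5 * e + 3) * g (N (j + 2)) := by nlinarith
      _ ≤ _ := Nat.mul_le_mul_right _ hj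

end Pool.Agent.APT
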