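import Pool.Agent.Lib_helper78.PCW.K
import Pool.Agent.Lib_helper78.APT.Par

/-!
# The languages, for general lengths of the passwords (MP_5d94c0_lc)

As in `Lib_helper78/PCW`, files `H` to `K`; the condition `b k ≤ k` is replaced by
`rr b k ≤ 4 * N k`.
-/

set_option autoImplicit false
set_option linter.unusedSectionVars false

namespace Pool.Agent.APT

open Pool.Agent.CK Pool.Agent.CKP Pool.Agent.PSL Pool.Agent.PCW

variable {P : Lang} {γ : Type} [ToD γ]

theorem rU_eq {b : ℕ → ℕ} (hmono : Monotone b) (hb : ∀ k, rr b k ≤ 4 * N k) (k : ℕ) :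
    rU b (List.replicate k (), List.replicate (N k) ()) = List.replicate (rr b k) () := by
  unfold rU
  have h4 : ([(), (), (), ()] : List Unit) = List.replicate 4 () := rfl
  rw [ulen_eq, h4, umul_replicate, rangeU_replicate, List.filter_map, List.length_map]
  congr 1
  have h1 : ((fun j => RT b (rtc (List.replicate k (), List.replicate (N k) ()).1 j)) ∘
      fun i => List.replicate i ()) = fun i => decide (i < rr b k) := by
    funext i
    simp only [Function.comp_apply]
    rw [RT_rtc, List.length_replicate, List.length_replicate]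
  rw [h1]
  have h2 : rr b k ≤ 4 * N k := hb k
  have h3 : ∀ n, rr b k ≤ n → ((List.range n).filter fun i => decide (i < rr b k)).length =
      rr b k := by
    intro n hn
    have e1 : ((List.range n).filter fun i => decide (i < rr b k)).length =
        ((Finset.range n).filter fun i => i < rr b k).card := by
      rw [← List.toFinset_card_of_nodup (List.Nodup.filter _ List.nodup_range)]
      congr 1
      ext i
      simp
    have e2 : ((Finset.range n).filter fun i => i < rr b k) = Finset.range (rr b k) := by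
      ext i
      simp only [Finset.mem_filter, Finset.mem_range]
      omega
    rw [e1, e2, Finset.card_range]
  exact h3 _ h2

section

variable {b : ℕ → ℕ} (hmono : Monotone b) (hb : ∀ k, rr b k ≤ 4 * N k)

include hmono hb

theorem vld_cd {k : ℕ} {u : List Bool} (hu : u.length = rr b k) :
    vld b (cd (List.replicate (N k) ()) u) = true := by
  unfold vld
  rw [zn_cd, zu_cd, scl_eq]
  simp only [List.length_replicate]
  rw [kk_N, rU_eq hmono hb, List.length_replicate]
  simp [hu]

theorem vld_iff {z : List Bool} : vld b z = true ↔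
    ∃ k, z = cd (List.replicate (N k) ()) (zu z) ∧ (zu z).length = rr b k := by
  constructor
  · intro h
    unfold vld at h
    rw [Bool.and_eq_true, Bool.and_eq_true, decide_eq_true_eq, decide_eq_true_eq,
      decide_eq_true_eq] at h
    obtain ⟨h1, h2, h3⟩ := h
    have h4 : zn z = List.replicate (zn z).length () := by
      unfold zn
      rw [ulen_eq, List.length_replicate]
    rw [scl_eq, List.length_replicate] at h2
    rw [scl_eq, rU_eq hmono hb, List.length_replicate] at h3
    refine ⟨kk (zn z).length, ?_, h3⟩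
    rw [h2, ← h4]
    exact h1
  · rintro ⟨k, h1, h2⟩
    rw [h1]
    exact vld_cd hmono hb h2

theorem LL_cd (ρ : ℕ → Bool) {k : ℕ} {u : List Bool} (hu : u.length = rr b k) :
    LL b ρ (cd (List.replicate (N k) ()) u) = leI u ρ := by
  unfold LL
  rw [vld_cd hmono hb hu, zu_cd, Bool.true_and]

theorem ptime_vld (hT : PTime P (RT b)) : PTime P (vld b) := by
  unfold vld
  have h1 : PTime P (fun z : List Bool => zn z) := ptime_zn PTime.id
  have h2 : PTime P (fun z : List Bool => zu z) := ptime_zu PTime.id
  have h3 := ptime_scl h1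
  exact (TD.ptime_list_eq PTime.id (ptime_cd h1 h2)).and ((PTime.nat_eq h3.snd.length
    h1.length).and (PTime.nat_eq h2.length (ptime_rU hT h3).length))

/-- the selector -/
theorem LL_selective (hT : PTime P (RT b)) (ρ : ℕ → Bool) : PCL.PSelective P (LL b ρ) := by
  have hv := ptime_vld hmono hb hT
  have hf : PTime P (fun p : List Bool × List Bool =>
      if vld b p.1 = true then (if vld b p.2 = true then
        (if le (zu p.1) (zu p.2) = true then p.1 else p.2) else p.1) else p.2) :=
    PTime.ite (hv.comp PTime.id.fst) (PTime.ite (hv.comp PTime.id.snd)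
      (PTime.ite (ptime_le (ptime_zu PTime.id.fst) (ptime_zu PTime.id.snd)) PTime.id.fst
        PTime.id.snd) PTime.id.fst) PTime.id.snd
  obtain ⟨c, k, h⟩ := two_inputs hf
  refine ⟨c, k, fun x y => ⟨(h x y).1, _, (h x y).2, ?_, ?_⟩⟩
  · simp only
    split_ifs
    · exact Or.inl rfl
    · exact Or.inr rfl
    · exact Or.inl rfl
    · exact Or.inr rfl
  · intro hxy
    simp only
    by_cases h1 : vld b x = true
    · rw [if_pos h1]
      by_cases h2 : vld b y = true
      · rw [if_pos h2]
        unfold LL at hxy ⊢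
        rw [h1, h2, Bool.true_and, Bool.true_and] at hxy
        by_cases h3 : le (zu x) (zu y) = true
        · rw [if_pos h3, h1, Bool.true_and]
          rcases hxy with hx | hy
          · exact hx
          · exact le_leI h3 hy
        · rw [if_neg h3, h2, Bool.true_and]
          rcases hxy with hx | hy
          · exact le_leI ((PSL.le_total (zu x) (zu y)).resolve_left h3) hx
          · exact hy
      · rw [if_neg h2]
        rcases hxy with hx | hy
        · exact hx
        · exfalso
          unfold LL at hy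
          rw [Bool.and_eq_true] at hy
          exact h2 hy.1
    · rw [if_neg h1]
      rcases hxy with hx | hy
      · exfalso
        unfold LL at hx
        rw [Bool.and_eq_true] at hx
        exact h1 hx.1
      · exact hy

end

theorem LL_qf {b : ℕ → ℕ} (hmono : Monotone b) (hb : ∀ k, rr b k ≤ 4 * N k) (ρ : ℕ → Bool) {k i : ℕ}
    (hi : i < rr b k) :
    LL b ρ (PCW.qf b (List.replicate k (), List.replicate (N k) ()) (pre ρ i)) = ρ i := by
  unfold PCW.qf
  rw [rU_eq hmono hb, udrop_eq, List.drop_replicate, map_false, List.length_cons, pre_length]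
  rw [LL_cd hmono hb]
  · exact leI_snoc0 _ _ _
  · rw [List.length_append, List.length_cons, List.length_replicate, pre_length]
    omega

/-- bound for the scale and the answers -/
theorem exists_bound {m1 : List Bool → ℕ}
    (hm : PTime P (fun x : List Bool => List.replicate (m1 x) ())) {b : ℕ → ℕ}
    (hmono : Monotone b) (hb : ∀ k, rr b k ≤ 4 * N k) :
    ∃ E, ∀ x : List Bool, x.length + rr b (kk (m1 x)) + 2 ≤ (x.length + 2) ^ E ∧
      N (kk (m1 x)) ≤ (x.length + 2) ^ E := by
  obtain ⟨Q, hQ⟩ := hm.size_le
  set R : Polynomial ℕ := Q.comp (Polynomial.C 4 * Polynomial.X + Polynomial.C 1) with hR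
  obtain ⟨E, hE⟩ := exists_pow (Polynomial.X + Polynomial.C 4 * (R * R + Polynomial.C 2) +
    Polynomial.C 2)
  refine ⟨E, fun x => ?_⟩
  have h1 := hE x.length
  have h2 : m1 x ≤ R.eval x.length := by
    have g2 := hQ x
    rw [sz_units, List.length_replicate] at g2
    have g3 : sz x ≤ 4 * x.length + 1 := size_bits x
    have g4 := poly_mono Q g3
    simp only [hR, Polynomial.eval_add, Polynomial.eval_mul, Polynomial.eval_comp,
      Polynomial.eval_X, Polynomial.eval_C]
    omega
  have h3 := N_kk_le (m1 x)
  have h4 := Nat.mul_le_mul h2 h2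
  have h5 := hb (kk (m1 x))
  simp only [Polynomial.eval_add, Polynomial.eval_mul, Polynomial.eval_X,
    Polynomial.eval_C] at h1
  constructor
  · refine le_trans ?_ h1
    omega
  · refine le_trans ?_ h1
    omega

theorem LA_eq {b : ℕ → ℕ} (hmono : Monotone b) (hb : ∀ k, rr b k ≤ 4 * N k) (ρ : ℕ → Bool) {k : ℕ}
    {z : List Bool} (hz : z.length ≤ N k) : LA b (pre ρ (rr b k)) z = LL b ρ z := by
  unfold LA LL
  by_cases hv : vld b z = true
  · obtain ⟨k', h1, h2⟩ := (vld_iff hmono hb).1 hv
    have h3 := cd_length (N k') (zu z)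
    rw [← h1] at h3
    have h4 : k' ≤ k := N_le_iff.1 (by omega)
    have h5 : (zu z).length ≤ rr b k := by
      rw [h2]
      exact (rr_mono b).monotone h4
    rw [hv, le_pre h5]
  · rw [Bool.not_eq_true] at hv
    rw [hv]
    rfl

theorem ptime_LA {b : ℕ → ℕ} (hmono : Monotone b) (hb : ∀ k, rr b k ≤ 4 * N k) (hT : PTime P (RT b))
    {a : γ → List Bool} (ha : PTime P a) :
    PTime P (fun p : γ × List Bool => LA b (a p.1) p.2) :=
  ((ptime_vld hmono hb hT).comp PTime.id.snd).and
    (ptime_le (ptime_zu PTime.id.snd) (ha.comp PTime.id.fst))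

theorem ptime_prio {b : ℕ → ℕ} (hmono : Monotone b) (hb : ∀ k, rr b k ≤ 4 * N k)
    (hT : PTime P (RT b)) : PTime P (prio b) :=
  PTime.ite (ptime_vld hmono hb hT) (PTime.cons (PTime.const false) (ptime_zu PTime.id))
    (PTime.const [true])

section

variable {X : Lang} {b : ℕ → ℕ} {ρ : ℕ → Bool}

/-- Reductions with few queries: from the password at scale `kk (m1 x)` one decides `D x`. -/
theorem few_of {O : Lang} (hmono : Monotone b) (hb : ∀ k, rr b k ≤ 4 * N k)
    {β : ℕ → ℕ}
    (htend : Filter.Tendsto β Filter.atTop Filter.atTop) {s : ℕ → ℕ}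
    (hcnd : ∀ k, CndX s (β k) (rr b k) k) (hT : PTime O (RT b)) {m1 : List Bool → ℕ}
    {dd : List Bool × List Bool → Bool}
    (hm : PTime O (fun x : List Bool => List.replicate (m1 x) ()))
    (hlen : ∀ x : List Bool, x.length ≤ m1 x) (hdd : PTime O dd) {D : Lang}
    (hD : ∀ x, dd (x, pre ρ (rr b (kk (m1 x)))) = D x) :
    FewQueriesReducible O D (LL b ρ) s := by
  obtain ⟨E, hE⟩ := exists_bound hm hmono hb
  have hs : PTime O (fun p : List Bool × List Bool => scl (List.replicate (m1 p.1) ())) :=
    ptime_scl (hm.comp PTime.id.fst)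
  have hf : PTime O (fun p : List Bool × List Bool =>
      if decide (p.2.length < (rU b (scl (List.replicate (m1 p.1) ()))).length) = true then
        true :: PCW.qf b (scl (List.replicate (m1 p.1) ())) p.2 else [false, dd p]) :=
    PTime.ite (PTime.nat_lt (PTime.length PTime.id.snd) (ptime_rU hT hs).length)
      (PTime.cons (PTime.const true) (ptime_qf hT hs PTime.id.snd))
      (PTime.cons (PTime.const false) (PTime.cons hdd (PTime.const [])))
  obtain ⟨c, k1, h1⟩ := two_inputs hf
  obtain ⟨K0, hK0⟩ := Filter.eventually_atTop.1 (Filter.tendsto_atTop.1 htend E)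
  refine ⟨c, E * (k1 + 1), N K0 + 1, fun x => ⟨rr b (kk (m1 x)), fun j => pre ρ j, ?_, ?_, rfl,
    ?_, ?_, ?_⟩⟩
  · have g1 := (hE x).1
    calc rr b (kk (m1 x)) ≤ (x.length + 2) ^ E := by omega
      _ ≤ _ := Nat.pow_le_pow_right (by omega) (Nat.le_mul_of_pos_right E (by omega))
  · intro hx
    have g1 : K0 ≤ kk (m1 x) := by
      by_contra hc
      have g2 := le_N_kk (m1 x)
      have g3 := N_mono (by omega : kk (m1 x) ≤ K0)
      have g4 := hlen x
      omega
    have g2 := hcnd (kk (m1 x)) x.length E (hK0 _ g1) (hE x).2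
    omega
  all_goals
    have htime : ∀ j ≤ rr b (kk (m1 x)), (x.length + (pre ρ j).length + 2) ^ k1 ≤
        (x.length + 2) ^ (E * (k1 + 1)) := by
      intro j hj
      have g1 : x.length + (pre ρ j).length + 2 ≤ (x.length + 2) ^ E := by
        refine le_trans ?_ (hE x).1
        rw [pre_length]
        omega
      calc (x.length + (pre ρ j).length + 2) ^ k1 ≤ ((x.length + 2) ^ E) ^ k1 :=
            Nat.pow_le_pow_left g1 _
        _ = (x.length + 2) ^ (E * k1) := by rw [← pow_mul]
        _ ≤ _ := Nat.pow_le_pow_right (by omega) (Nat.mul_le_mul_left _ (by omega))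
    have hrun : ∀ j ≤ rr b (kk (m1 x)),
        Halts O c x (pre ρ j) ((x.length + 2) ^ (E * (k1 + 1))) ∧
        (run O c x (pre ρ j) ((x.length + 2) ^ (E * (k1 + 1)))).2 0 =
          if j < rr b (kk (m1 x)) then
            true :: PCW.qf b (List.replicate (kk (m1 x)) (), List.replicate (N (kk (m1 x))) ())
              (pre ρ j) else [false, dd (x, pre ρ j)] := by
      intro j hj
      obtain ⟨g1, g2⟩ := h1 x (pre ρ j)
      have g4 := PCL.NE_run_stable g1 (htime j hj)
      simp only [decide_eq_true_eq] at g2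
      rw [scl_eq, List.length_replicate, rU_eq hmono hb, List.length_replicate] at g2
      refine ⟨?_, ?_⟩
      · unfold Halts at g1 ⊢
        rw [g4]
        exact g1
      · rw [g4, g2]
        simp only [pre_length]
  · exact fun j hj => (hrun j hj).1
  · intro j hj
    refine ⟨PCW.qf b (List.replicate (kk (m1 x)) (), List.replicate (N (kk (m1 x))) ()) (pre ρ j),
      ?_, ?_⟩
    · have := (hrun j hj.le).2
      rw [if_pos hj] at this
      exact this
    · show pre ρ (j + 1) = _
      rw [pre_succ, LL_qf hmono hb ρ hj]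
  · have := (hrun _ le_rfl).2
    rw [if_neg (lt_irrefl _)] at this
    rw [this, hD]

/-- The data of a language that reduces to `LL`: it is decided with the help of a password. -/
theorem exists_dd {O : Lang} (hmono : Monotone b) (hb : ∀ k, rr b k ≤ 4 * N k) (hT : PTime O (RT b))
    {D : Lang} (hD : TuringReducible O D (LL b ρ)) : ∃ (i : ℕ)
      (dd : List Bool × List Bool → Bool), PTime O dd ∧
      ∀ x : List Bool, dd (x, pre ρ (rr b (kk (x.length + (x.length + 2) ^ i)))) = D x := by
  obtain ⟨i, rfl⟩ := exists_PL hD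
  have hx : PTime O (fun p : List Bool × List Bool => p.1) := PTime.id.fst
  refine ⟨ex i, fun p => accB (join O (LA b p.2)) (prog i) p.1 [] ((p.1.length + 2) ^ ex i),
    ptime_accB (P := fun p : List Bool × List Bool => join O (LA b p.2))
      (ptime_join (B := fun p : List Bool × List Bool => LA b p.2)
        (ptime_LA hmono hb hT PTime.id.snd)) (prog i) hx (PTime.const [])
      ((UPoly.tb (ex i)).comp hx), fun x => ?_⟩
  show accB (join O (LA b (pre ρ _))) (prog i) x [] _ = accB (join O (LL b ρ)) (prog i) x [] _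
  refine mach_accB_congr _ _ _ _ _ _ x.length (x.length + (x.length + 2) ^ ex i) le_rfl
    (Nat.zero_le _) le_rfl ?_
  intro w hw
  match w with
  | [] => rfl
  | false :: w => rfl
  | true :: w =>
    show LA b _ w = LL b ρ w
    apply LA_eq hmono hb
    rw [List.length_cons] at hw
    have h1 := le_N_kk (x.length + (x.length + 2) ^ ex i)
    omega

/-- Everything that reduces to the language reduces to it with few queries. -/
theorem few_turing {O : Lang} (hmono : Monotone b) (hb : ∀ k, rr b k ≤ 4 * N k)
    {β : ℕ → ℕ}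
    (htend : Filter.Tendsto β Filter.atTop Filter.atTop) {s : ℕ → ℕ}
    (hcnd : ∀ k, CndX s (β k) (rr b k) k) (hT : PTime O (RT b)) {D : Lang}
    (hD : TuringReducible O D (LL b ρ)) : FewQueriesReducible O D (LL b ρ) s := by
  obtain ⟨i, dd, h1, h2⟩ := exists_dd hmono hb hT hD
  exact few_of (m1 := fun x => x.length + (x.length + 2) ^ i) hmono hb htend hcnd hT
    ((upoly_m O i).comp PTime.id) (fun x => Nat.le_add_right _ _) h1 h2

theorem fillA_eq (hmono : Monotone b) (hb : ∀ k, rr b k ≤ 4 * N k) (k : ℕ) :
    fillA (LL b ρ) b (List.replicate k (), List.replicate (N k) ()) = pre ρ (rr b k) := by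
  have key : ∀ (l : List Unit) (n : ℕ), n + l.length ≤ rr b k →
      l.foldl (fun a _ => a ++ [LL b ρ (PCW.qf b (List.replicate k (), List.replicate (N k) ()) a)])
        (pre ρ n) = pre ρ (n + l.length) := by
    intro l
    induction l with
    | nil => intro n _; rfl
    | cons a t ih =>
      intro n hn
      rw [List.length_cons] at hn
      rw [List.foldl_cons, LL_qf hmono hb ρ (by omega), ← pre_succ, ih (n + 1) (by omega),
        List.length_cons]
      congr 1
      omega
  have h := key (rU b (List.replicate k (), List.replicate (N k) ())) 0 (by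
    rw [rU_eq hmono hb, List.length_replicate]
    omega)
  rw [Nat.zero_add] at h
  unfold fillA
  have h0 : pre ρ 0 = [] := rfl
  rw [h0] at h
  rw [h, rU_eq hmono hb, List.length_replicate]

/-- the density of the language -/
theorem LL_density (hmono : Monotone b) (hb : ∀ k, rr b k ≤ 4 * N k)
    {β : ℕ → ℕ}
    (htend : Filter.Tendsto β Filter.atTop Filter.atTop) {s : ℕ → ℕ}
    (hcnd : ∀ k n, 1 ≤ β k → N k ≤ n → rr b k + 1 ≤ s n) : ∀ᶠ n : ℕ in Filter.atTop,
      Nat.card {z : List Bool // z.length ≤ n ∧ LL b ρ z = true} ≤ 2 ^ s n := by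
  obtain ⟨K0, hK0⟩ := Filter.eventually_atTop.1 (Filter.tendsto_atTop.1 htend 1)
  filter_upwards [Filter.eventually_ge_atTop (N (K0 + 1))] with n hn
  have hk : K0 + 1 < kk (n + 1) := by
    by_contra hc
    have h1 := le_N_kk (n + 1)
    have h2 := N_mono (by omega : kk (n + 1) ≤ K0 + 1)
    omega
  obtain ⟨k0, hk0⟩ : ∃ k0, kk (n + 1) = k0 + 1 := ⟨kk (n + 1) - 1, by omega⟩
  have hN : N k0 ≤ n := by
    have := N_lt_of_lt_kk (by omega : k0 < kk (n + 1))
    omega
  have h1 := hcnd k0 n (hK0 k0 (by omega)) hN
  have h3 : Nat.card {z : List Bool // z.length ≤ n ∧ LL b ρ z = true} ≤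
      Nat.card {u : List Bool // u.length ≤ rr b k0} := by
    have hfin : Finite {u : List Bool // u.length ≤ rr b k0} :=
      (List.finite_length_le Bool (rr b k0)).to_subtype
    have hz : ∀ z : List Bool, z.length ≤ n → LL b ρ z = true →
        ∃ k ≤ k0, z = cd (List.replicate (N k) ()) (zu z) ∧ (zu z).length = rr b k := by
      intro z hz1 hz2
      unfold LL at hz2
      rw [Bool.and_eq_true] at hz2
      obtain ⟨k, g1, g2⟩ := (vld_iff hmono hb).1 hz2.1
      refine ⟨k, ?_, g1, g2⟩
      by_contra hc
      have g3 := cd_length (N k) (zu z)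
      rw [← g1] at g3
      have g4 := N_mono (by omega : kk (n + 1) ≤ k)
      have g5 := le_N_kk (n + 1)
      omega
    apply Nat.card_le_card_of_injective (fun z : {z : List Bool // z.length ≤ n ∧
      LL b ρ z = true} => (⟨zu z.1, by
        obtain ⟨k, hk, _, g⟩ := hz z.1 z.2.1 z.2.2
        rw [g]
        exact (rr_mono b).monotone hk⟩ : {u : List Bool // u.length ≤ rr b k0}))
    intro z z' hzz
    simp only [Subtype.mk.injEq] at hzz
    apply Subtype.ext
    obtain ⟨k, _, g1, g2⟩ := hz z.1 z.2.1 z.2.2
    obtain ⟨k', _, g1', g2'⟩ := hz z'.1 z'.2.1 z'.2.2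
    have hkk : k = k' := by
      rw [hzz, g2'] at g2
      exact ((rr_mono b).injective g2).symm
    rw [g1, g1', hzz, hkk]
  have h4 : Nat.card {u : List Bool // u.length ≤ rr b k0} ≤ 2 ^ (rr b k0 + 1) := by
    have := (TD.card_str (rr b k0)).2
    exact this
  refine (h3.trans h4).trans (Nat.pow_le_pow_right (by norm_num) ?_)
  omega

end

/-- The polynomial hierarchy. -/
theorem ph_turing {O : Lang} {b : ℕ → ℕ} {ρ : ℕ → Bool} (hmono : Monotone b) (hb : ∀ k, rr b k ≤ 4 * N k)
    (hT : PTime O (RT b)) (hC : TuringComplete O (LL b ρ)) (j : ℕ)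
    (D : Lang) (hD : SigmaP O j D) : TuringReducible O D (LL b ρ) :=
  prio_collapse (inFP_of (ptime_prio hmono hb hT)) (prio_closed b ρ) hC j D hD

section

variable {b : ℕ → ℕ} (hmono : Monotone b) (hb : ∀ k, rr b k ≤ 4 * N k)

include hmono hb

theorem vls_cd {k : ℕ} {u : List Bool} (hu : u.length ≤ rr b k) :
    vls b (cd (List.replicate (N k) ()) u) = true := by
  unfold vls
  rw [zn_cd, zu_cd, scl_eq]
  simp only [List.length_replicate]
  rw [kk_N, rU_eq hmono hb, List.length_replicate]
  simp [hu]

theorem vls_iff {z : List Bool} : vls b z = true ↔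
    ∃ k, z = cd (List.replicate (N k) ()) (zu z) ∧ (zu z).length ≤ rr b k := by
  constructor
  · intro h
    unfold vls at h
    rw [Bool.and_eq_true, Bool.and_eq_true, decide_eq_true_eq, decide_eq_true_eq,
      decide_eq_true_eq] at h
    obtain ⟨h1, h2, h3⟩ := h
    have h4 : zn z = List.replicate (zn z).length () := by
      unfold zn
      rw [ulen_eq, List.length_replicate]
    rw [scl_eq, List.length_replicate] at h2
    rw [scl_eq, rU_eq hmono hb, List.length_replicate] at h3
    refine ⟨kk (zn z).length, ?_, h3⟩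
    rw [h2, ← h4]
    exact h1
  · rintro ⟨k, h1, h2⟩
    rw [h1]
    exact vls_cd hmono hb h2

theorem ptime_vls (hT : PTime P (RT b)) : PTime P (vls b) := by
  unfold vls
  have h1 : PTime P (fun z : List Bool => zn z) := ptime_zn PTime.id
  have h2 : PTime P (fun z : List Bool => zu z) := ptime_zu PTime.id
  have h3 := ptime_scl h1
  exact (TD.ptime_list_eq PTime.id (ptime_cd h1 h2)).and ((PTime.nat_eq h3.snd.length
    h1.length).and (PTime.nat_le h2.length (ptime_rU hT h3).length))

theorem SP_cd (ρ : ℕ → Bool) {k : ℕ} {u : List Bool} (hu : u.length ≤ rr b k) :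
    SP b ρ (cd (List.replicate (N k) ()) u) = decide (u = pre ρ u.length) := by
  unfold SP
  rw [vls_cd hmono hb hu, zu_cd, Bool.true_and]

theorem SP_snoc (ρ : ℕ → Bool) {k i : ℕ} (hi : i < rr b k) :
    SP b ρ (cd (List.replicate (N k) ()) (pre ρ i ++ [true])) = ρ i := by
  rw [SP_cd hmono hb ρ (by rw [List.length_append, pre_length, List.length_singleton]; omega),
    List.length_append, pre_length, List.length_singleton, pre_succ]
  rw [Bool.eq_iff_iff, decide_eq_true_eq]
  constructor
  · intro h
    have := List.append_cancel_left h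
    simp only [List.cons.injEq, and_true] at this
    exact this.symm
  · intro h
    rw [h]

/-- The set of the beginnings is reducible to the left cut. -/
theorem SP_turing {O : Lang} {ρ : ℕ → Bool} (hT : PTime O (RT b)) :
    TuringReducible O (SP b ρ) (LL b ρ) := by
  have hL : PTime (join O (LL b ρ)) (LL b ρ) :=
    (PTime.askR (O := O) (B := LL b ρ) (PTime.id (α := List Bool)))
  have hz : PTime (join O (LL b ρ)) (fun z : List Bool => zu z) := ptime_zu PTime.id
  have hs : PTime (join O (LL b ρ)) (fun z : List Bool => scl (zn z)) :=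
    ptime_scl (ptime_zn PTime.id)
  refine inP_of (((ptime_vls hmono hb hT.lift).and
    (ptime_isPre hz (ptime_fillA hL hT.lift hs))).of_eq fun z => ?_)
  unfold SP
  by_cases hv : vls b z = true
  · obtain ⟨k, h1, h2⟩ := (vls_iff hmono hb).1 hv
    have h3 : zn z = List.replicate (N k) () := by
      rw [h1, zn_cd]
    rw [hv, Bool.true_and, Bool.true_and, h3, scl_eq, List.length_replicate, kk_N,
      fillA_eq hmono hb, Bool.eq_iff_iff, isPre_iff, decide_eq_true_eq]
    constructor
    · intro h
      exact pre_of_prefix h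
    · intro h
      rw [h]
      exact pre_prefix ρ h2
  · rw [Bool.not_eq_true] at hv
    rw [hv, Bool.false_and, Bool.false_and]

/-- Pairs can be approximated. -/
theorem SP_pairs (hT : PTime P (RT b)) (ρ : ℕ → Bool) : PairApproximable P (SP b ρ) := by
  have hv := ptime_vls hmono hb hT
  have h1 : PTime P (fun p : List Bool × List Bool => zu p.1) := ptime_zu PTime.id.fst
  have h2 : PTime P (fun p : List Bool × List Bool => zu p.2) := ptime_zu PTime.id.snd
  have hf : PTime P (fun p : List Bool × List Bool =>
      if (vls b p.1 && vls b p.2) = true then (if isPre (zu p.1) (zu p.2) = true then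
        [false, true] else if isPre (zu p.2) (zu p.1) = true then [true, false] else
          [true, true]) else [true, true]) :=
    PTime.ite ((hv.comp PTime.id.fst).and (hv.comp PTime.id.snd))
      (PTime.ite (ptime_isPre h1 h2) (PTime.const _) (PTime.ite (ptime_isPre h2 h1)
        (PTime.const _) (PTime.const _))) (PTime.const _)
  obtain ⟨c, k, h⟩ := two_inputs hf
  -- initial segments of elements
  have hseg : ∀ u v : List Bool, u <+: v → v = pre ρ v.length → u = pre ρ u.length := by
    intro u v huv hv
    rw [hv] at huv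
    exact pre_of_prefix huv
  refine ⟨c, k, fun x y => ⟨(h x y).1, ?_⟩⟩
  have h3 := (h x y).2
  simp only at h3
  unfold SP
  by_cases g0 : (vls b x && vls b y) = true
  · rw [if_pos g0] at h3
    rw [Bool.and_eq_true] at g0
    rw [g0.1, g0.2, Bool.true_and, Bool.true_and]
    by_cases g1 : isPre (zu x) (zu y) = true
    · rw [if_pos g1] at h3
      refine ⟨false, true, h3, ?_⟩
      rintro ⟨e1, e2⟩
      rw [decide_eq_true_eq] at e2
      rw [decide_eq_false_iff_not] at e1
      exact e1 (hseg _ _ (isPre_iff.1 g1) e2)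
    · rw [if_neg g1] at h3
      by_cases g2 : isPre (zu y) (zu x) = true
      · rw [if_pos g2] at h3
        refine ⟨true, false, h3, ?_⟩
        rintro ⟨e1, e2⟩
        rw [decide_eq_true_eq] at e1
        rw [decide_eq_false_iff_not] at e2
        exact e2 (hseg _ _ (isPre_iff.1 g2) e1)
      · rw [if_neg g2] at h3
        refine ⟨true, true, h3, ?_⟩
        rintro ⟨e1, e2⟩
        rw [decide_eq_true_eq] at e1 e2
        rcases Nat.le_total (zu x).length (zu y).length with hl | hl
        · apply g1
          rw [isPre_iff, e1, e2]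
          exact pre_prefix ρ hl
        · apply g2
          rw [isPre_iff, e1, e2]
          exact pre_prefix ρ hl
  · rw [if_neg g0] at h3
    refine ⟨true, true, h3, ?_⟩
    rintro ⟨e1, e2⟩
    rw [Bool.and_eq_true] at e1 e2
    exact g0 (by rw [Bool.and_eq_true]; exact ⟨e1.1, e2.1⟩)

/-- the number of elements -/
theorem SP_sparse {β : ℕ → ℕ}
    (htend : Filter.Tendsto β Filter.atTop Filter.atTop) {s : ℕ → ℕ}
    (hcnd : ∀ k n, 1 ≤ β k → N k ≤ n → rr b k + 1 ≤ s n) (ρ : ℕ → Bool) : ∀ᶠ n : ℕ in Filter.atTop,
      Nat.card {z : List Bool // z.length ≤ n ∧ SP b ρ z = true} ≤ s n ^ 2 := by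
  obtain ⟨K0, hK0⟩ := Filter.eventually_atTop.1 (Filter.tendsto_atTop.1 htend 1)
  filter_upwards [Filter.eventually_ge_atTop (N (K0 + 1))] with n hn
  have hk : K0 + 1 < kk (n + 1) := by
    by_contra hc
    have h1 := le_N_kk (n + 1)
    have h2 := N_mono (by omega : kk (n + 1) ≤ K0 + 1)
    omega
  obtain ⟨k0, hk0⟩ : ∃ k0, kk (n + 1) = k0 + 1 := ⟨kk (n + 1) - 1, by omega⟩
  have hN : N k0 ≤ n := by
    have := N_lt_of_lt_kk (by omega : k0 < kk (n + 1))
    omega
  have h1 := hcnd k0 n (hK0 k0 (by omega)) hN
  have h3 := rr_ge b k0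
  have hz : ∀ z : List Bool, z.length ≤ n → SP b ρ z = true →
      ∃ k ≤ k0, z = cd (List.replicate (N k) ()) (zu z) ∧ (zu z).length ≤ rr b k0 ∧
        kk (zn z).length = k ∧ zu z = pre ρ (zu z).length := by
    intro z hz1 hz2
    unfold SP at hz2
    rw [Bool.and_eq_true, decide_eq_true_eq] at hz2
    obtain ⟨k, g1, g2⟩ := (vls_iff hmono hb).1 hz2.1
    have g5 : k ≤ k0 := by
      by_contra hc
      have g3 := cd_length (N k) (zu z)
      rw [← g1] at g3
      have g4 := N_mono (by omega : kk (n + 1) ≤ k)
      have g5 := le_N_kk (n + 1)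
      omega
    refine ⟨k, g5, g1, g2.trans ((rr_mono b).monotone g5), ?_, hz2.2⟩
    rw [g1, zn_cd, List.length_replicate, kk_N]
  have h4 : Nat.card {z : List Bool // z.length ≤ n ∧ SP b ρ z = true} ≤
      Nat.card (Fin (k0 + 1) × Fin (rr b k0 + 1)) := by
    apply Nat.card_le_card_of_injective (fun z : {z : List Bool // z.length ≤ n ∧
      SP b ρ z = true} => ((⟨kk (zn z.1).length, by
        obtain ⟨k, g1, _, _, g4, _⟩ := hz z.1 z.2.1 z.2.2
        omega⟩, ⟨(zu z.1).length, by
        obtain ⟨k, _, _, g3, _, _⟩ := hz z.1 z.2.1 z.2.2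
        omega⟩) : Fin (k0 + 1) × Fin (rr b k0 + 1)))
    intro z z' hzz
    simp only [Prod.mk.injEq, Fin.mk.injEq] at hzz
    obtain ⟨e1, e2⟩ := hzz
    obtain ⟨k, _, g2, _, g4, g5⟩ := hz z.1 z.2.1 z.2.2
    obtain ⟨k', _, g2', _, g4', g5'⟩ := hz z'.1 z'.2.1 z'.2.2
    apply Subtype.ext
    have hkk : k = k' := by omega
    rw [g2, g2', hkk]
    congr 1
    rw [g5, g5', e2]
  have h5 : Nat.card (Fin (k0 + 1) × Fin (rr b k0 + 1)) = (k0 + 1) * (rr b k0 + 1) := by
    rw [Nat.card_prod, Nat.card_eq_fintype_card, Nat.card_eq_fintype_card, Fintype.card_fin,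
      Fintype.card_fin]
  rw [h5] at h4
  refine h4.trans ?_
  rw [pow_two]
  exact Nat.mul_le_mul (by omega) (by omega)

end

theorem fillS_eq {b : ℕ → ℕ} (hmono : Monotone b) (hb : ∀ k, rr b k ≤ 4 * N k) (ρ : ℕ → Bool) (k : ℕ) :
    fillS (SP b ρ) b (List.replicate k (), List.replicate (N k) ()) = pre ρ (rr b k) := by
  have key : ∀ (l : List Unit) (n : ℕ), n + l.length ≤ rr b k →
      l.foldl (fun a _ => a ++ [SP b ρ (cd (List.replicate (N k) ()) (a ++ [true]))])
        (pre ρ n) = pre ρ (n + l.length) := by
    intro l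
    induction l with
    | nil => intro n _; rfl
    | cons a t ih =>
      intro n hn
      rw [List.length_cons] at hn
      rw [List.foldl_cons, SP_snoc hmono hb ρ (by omega), ← pre_succ, ih (n + 1) (by omega),
        List.length_cons]
      congr 1
      omega
  have h := key (rU b (List.replicate k (), List.replicate (N k) ())) 0 (by
    rw [rU_eq hmono hb, List.length_replicate]
    omega)
  rw [Nat.zero_add] at h
  unfold fillS
  have h0 : pre ρ 0 = [] := rfl
  rw [h0] at h
  rw [h, rU_eq hmono hb, List.length_replicate]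

end Pool.Agent.APT
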