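import Pool.Agent.Lib_helper78.APT.Exist
import Pool.Agent.Lib_helper78.APT.Pw

/-!
# The languages relative to the closed oracle (MP_5d94c0_lc)
-/

set_option autoImplicit false
set_option linter.unusedSectionVars false

namespace Pool.Agent.APT

open Pool.Agent.CK Pool.Agent.CKP Pool.Agent.PSL Pool.Agent.PCW Pool.Agent.APS

/-- A polynomial time test `V` for the passwords, and universal questions `Q` for whoever knows the
password. -/
structure VW (O : Lang) (b : ℕ → ℕ) (ρ : ℕ → Bool)
    (V : List Unit × List Unit → List Bool → Bool)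
    (Q : List Unit × List Unit → List Bool → List Bool → Bool) : Prop where
  mono : Monotone b
  le : ∀ k, rr b k ≤ 4 * N k
  hT : PTime O (RT b)
  pV : PTime O (fun p : (List Unit × List Unit) × List Bool => V p.1 p.2)
  pQ : PTime O (fun p : (List Unit × List Unit) × List Bool × List Bool => Q p.1 p.2.1 p.2.2)
  hV : ∀ (k : ℕ) (y : List Bool), V (List.replicate k (), List.replicate (N k) ()) y = true ↔
    y = pre ρ (rr b k)
  hQ : ∀ (k : ℕ) (w : List Bool), 8 * w.tail.length + 8 ≤ N k →
    Q (List.replicate k (), List.replicate (N k) ()) (pre ρ (rr b k)) w = KK O w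

section

variable {O : Lang} {b : ℕ → ℕ} {ρ : ℕ → Bool} {V : List Unit × List Unit → List Bool → Bool}
  {Q : List Unit × List Unit → List Bool → List Bool → Bool} (W : VW O b ρ V Q)

include W

theorem vw_inNP : InNP O (LL b ρ) := by
  refine inNP_of (V := fun p => vld b p.1 && (V (scl (zn p.1)) p.2 &&
    le (zu p.1) p.2)) ?_ (B := fun n => n) UPoly.id ?_ ?_
  · refine ((ptime_vld W.mono W.le W.hT).comp PTime.id.fst).and (PTime.and ?_
      (ptime_le (ptime_zu PTime.id.fst) PTime.id.snd))
    exact (W.pV.comp ((ptime_scl (ptime_zn PTime.id.fst)).pair PTime.id.snd)).of_eq fun _ => rfl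
  · intro z hz
    unfold LL at hz
    rw [Bool.and_eq_true] at hz
    obtain ⟨hv, hle⟩ := hz
    obtain ⟨k, h1, h2⟩ := (vld_iff W.mono W.le).1 hv
    have h3 : zn z = List.replicate (N k) () := by
      rw [h1, zn_cd]
    have h4 := cd_length (N k) (zu z)
    rw [← h1] at h4
    refine ⟨pre ρ (rr b k), ?_, ?_⟩
    · rw [pre_length]
      omega
    · simp only
      rw [Bool.and_eq_true, Bool.and_eq_true]
      refine ⟨hv, ?_, leI_le h2.le hle⟩
      rw [h3, scl_eq, List.length_replicate, kk_N]
      exact (W.hV k _).2 rfl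
  · intro z y h
    rw [Bool.and_eq_true, Bool.and_eq_true] at h
    obtain ⟨h1, h2, h3⟩ := h
    simp only at h1 h2 h3
    obtain ⟨k, h4, h5⟩ := (vld_iff W.mono W.le).1 h1
    have h6 : zn z = List.replicate (N k) () := by
      rw [h4, zn_cd]
    rw [h6, scl_eq, List.length_replicate, kk_N] at h2
    have h7 := (W.hV k y).1 h2
    unfold LL
    rw [Bool.and_eq_true]
    refine ⟨h1, le_leI h3 ?_⟩
    rw [h7]
    exact leI_pre ρ _

theorem vw_ds (a : Bool) (i : ℕ) (x : List Bool) :
    Q (ss i x) (pre ρ (rr b (kk (m0 i x)))) (a :: kg i x) = KK O (a :: kg i x) := by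
  rw [ss_eq, W.hQ]
  have h1 := le_N_kk (m0 i x)
  rw [List.tail_cons]
  unfold m0 at h1 ⊢
  omega

theorem vw_df (i : ℕ) (x : List Bool) :
    Q (ss i x) (pre ρ (rr b (kk (m0 i x)))) (false :: kg i x) = NL i O x := by
  rw [vw_ds W]
  exact K_kg O i x

/-- Everything that reduces to the language has unique witnesses: the passwords. -/
theorem vw_up {D : Lang} (hD : TuringReducible O D (LL b ρ)) : InUP O D := by
  obtain ⟨i, dd, h1, h2⟩ := exists_dd W.mono W.le W.hT hD
  set m : List Bool → ℕ := fun x => x.length + (x.length + 2) ^ i with hm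
  set V' : List Bool × List Bool → Bool := fun p =>
    V (scl (List.replicate (m p.1) ())) p.2 && dd p with hVdef
  have hs : PTime O (fun p : List Bool × List Bool => scl (List.replicate (m p.1) ())) :=
    ptime_scl ((upoly_m O i).comp PTime.id.fst)
  have hV : PTime O V' := ((W.pV.comp (hs.pair PTime.id.snd)).of_eq fun _ => rfl).and h1
  have key : ∀ x y : List Bool, V' (x, y) = true ↔ y = pre ρ (rr b (kk (m x))) ∧ D x = true := by
    intro x y
    simp only [hVdef]
    rw [Bool.and_eq_true, scl_eq, List.length_replicate, W.hV]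
    constructor
    · rintro ⟨g1, g3⟩
      refine ⟨g1, ?_⟩
      rw [g1] at g3
      rw [← h2 x]
      exact g3
    · rintro ⟨g1, g2⟩
      refine ⟨g1, ?_⟩
      rw [g1, h2 x, g2]
  refine TD.inUP_of hV (B := fun n => 4 * ((n + (n + 2) ^ i) * (n + (n + 2) ^ i) + 2))
    ((UPoly.const 4).mul (((upoly_m O i).mul (upoly_m O i)).add (UPoly.const 2))) ?_ ?_ ?_
  · intro x hx
    refine ⟨pre ρ (rr b (kk (m x))), ?_, (key x _).2 ⟨rfl, hx⟩⟩
    rw [pre_length]
    have g1 := W.le (kk (m x))
    have g3 : N (kk (m x)) ≤ (x.length + (x.length + 2) ^ i) * (x.length + (x.length + 2) ^ i) + 2 :=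
      N_kk_le (m x)
    omega
  · intro x y h
    exact ((key x y).1 h).2
  · intro x y y' h h'
    rw [((key x y).1 h).1, ((key x y').1 h').1]

/-- universal questions are answered with the help of the language -/
theorem vw_all (a : Bool) (i : ℕ) :
    TuringReducible O (fun x => KK O (a :: kg i x)) (LL b ρ) := by
  refine inP_of ?_
  have hL : PTime (join O (LL b ρ)) (LL b ρ) :=
    (PTime.askR (O := O) (B := LL b ρ) (PTime.id (α := List Bool)))
  have hs : PTime (join O (LL b ρ)) (fun x : List Bool => ss i x) := ptime_ss PTime.id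
  have hk : PTime (join O (LL b ρ)) (fun x : List Bool => a :: kg i x) :=
    PTime.cons (PTime.const a) ((ptime_kg i).comp PTime.id)
  refine (W.pQ.lift.comp (hs.pair ((ptime_fillA hL W.hT.lift hs).pair hk))).of_eq fun x => ?_
  show Q (ss i x) (fillA (LL b ρ) b (ss i x)) (a :: kg i x) = _
  have h1 := fillA_eq (ρ := ρ) W.mono W.le (kk (m0 i x))
  rw [← ss_eq] at h1
  rw [h1, vw_ds W]

theorem vw_complete : TuringComplete O (LL b ρ) := by
  refine ⟨vw_inNP W, fun D hD => ?_⟩
  obtain ⟨i, rfl⟩ := exists_NL hD
  have h : (fun x => KK O (false :: kg i x)) = NL i O := funext fun x => K_kg O i x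
  rw [← h]
  exact vw_all W false i

/-- polynomial space -/
theorem vw_space {D : Lang} (hD : InPSPACE O D) : TuringReducible O D (LL b ρ) := by
  obtain ⟨i, hi⟩ := exists_SL hD
  have h : (fun x => KK O (true :: kg i x)) = D := funext fun x => hi x
  rw [← h]
  exact vw_all W true i

theorem vw_SP : TuringComplete O (SP b ρ) := by
  constructor
  · obtain ⟨c, k, h1, h2, _⟩ := vw_up W (SP_turing W.mono W.le W.hT)
    exact ⟨c, k, h1, h2⟩
  · intro D hD
    obtain ⟨i, rfl⟩ := exists_NL hD
    refine inP_of ?_
    have hS : PTime (join O (SP b ρ)) (SP b ρ) :=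
      (PTime.askR (O := O) (B := SP b ρ) (PTime.id (α := List Bool)))
    have hs : PTime (join O (SP b ρ)) (fun x : List Bool => ss i x) := ptime_ss PTime.id
    have hk : PTime (join O (SP b ρ)) (fun x : List Bool => false :: kg i x) :=
      PTime.cons (PTime.const false) ((ptime_kg i).comp PTime.id)
    refine (W.pQ.lift.comp (hs.pair ((ptime_fillS hS W.hT.lift hs).pair hk))).of_eq fun x => ?_
    show Q (ss i x) (fillS (SP b ρ) b (ss i x)) (false :: kg i x) = _
    have h1 := fillS_eq W.mono W.le ρ (kk (m0 i x))
    rw [← ss_eq] at h1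
    rw [h1, vw_df W]

end

/-! ### the tests -/

/-- the test -/
def VT (O : Lang) (b : ℕ → ℕ) (s : List Unit × List Unit) (y : List Bool) : Bool :=
  decide (y.length = (rU b s).length) &&
    (rangeU (rU b s ++ (rU b s ++ [(), (), ()]))).all fun i =>
      O (true :: (qA y ++ ((s.2.map fun _ => false) ++ i.map fun _ => true)))

/-- the question -/
def QT (O : Lang) (s : List Unit × List Unit) (a w : List Bool) : Bool :=
  O (true :: (qB a w ++ s.2.map fun _ => false))

theorem ptime_VT {O : Lang} {b : ℕ → ℕ} (hT : PTime O (RT b)) :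
    PTime O (fun p : (List Unit × List Unit) × List Bool => VT O b p.1 p.2) := by
  unfold VT
  have hs : PTime O (fun p : (List Unit × List Unit) × List Bool => rU b p.1) :=
    ptime_rU hT PTime.id.fst
  refine (PTime.nat_eq (PTime.length PTime.id.snd) hs.length).and
    (PTime.all (l := fun p : (List Unit × List Unit) × List Bool =>
      rangeU (rU b p.1 ++ (rU b p.1 ++ [(), (), ()])))
      (f := fun p i => O (true :: (qA p.2 ++ ((p.1.2.map fun _ => false) ++
        i.map fun _ => true))))
      (PTime.rangeU (hs.append (hs.append (PTime.const _)))) ?_)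
  refine PTime.ask (PTime.cons (PTime.const true) ((ptime_qA PTime.id.fst.snd).append
    ((ptime_zeros PTime.id.fst.fst.snd).append ?_)))
  exact PTime.map (f := fun _ _ => true) PTime.id.snd (PTime.const _)

theorem ptime_QT {O : Lang} :
    PTime O (fun p : (List Unit × List Unit) × List Bool × List Bool =>
      QT O p.1 p.2.1 p.2.2) := by
  unfold QT
  exact PTime.ask (PTime.cons (PTime.const true) ((ptime_qB PTime.id.snd.fst
    PTime.id.snd.snd).append (ptime_zeros PTime.id.fst.snd)))

theorem map_true (n : ℕ) : ((List.replicate n ()).map fun _ => true) =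
    List.replicate n true := by
  rw [List.map_const', List.length_replicate]

theorem qB_len (u w : List Bool) : (qB u w).length ≤ 4 * u.length + 4 * w.length + 5 := by
  unfold qB
  rw [D.enc_length]
  have h1 := size_bits u
  have h2 := size_bits w
  simp only [D.size]
  omega

theorem VT_iff {O : Lang} {b : ℕ → ℕ} (hmono : Monotone b) (hb : ∀ k, rr b k ≤ 4 * N k) (k : ℕ)
    (y : List Bool) : VT O b (List.replicate k (), List.replicate (N k) ()) y = true ↔
      y.length = rr b k ∧ ∀ i < 2 * rr b k + 3, O (true :: tst y k i) = true := by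
  unfold VT
  rw [rU_eq hmono hb, List.length_replicate, Bool.and_eq_true, decide_eq_true_iff,
    List.all_eq_true]
  have e1 : (List.replicate (rr b k) () ++ (List.replicate (rr b k) () ++ [(), (), ()])) =
      List.replicate (2 * rr b k + 3) () := by
    have : ([(), (), ()] : List Unit) = List.replicate 3 () := rfl
    rw [this, List.replicate_append_replicate, List.replicate_append_replicate]
    congr 1
    ring
  rw [e1, rangeU_replicate]
  apply and_congr Iff.rfl
  constructor
  · intro h i hi
    have h1 := h (List.replicate i ()) (List.mem_map.2 ⟨i, List.mem_range.2 hi, rfl⟩)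
    rw [map_false, map_true] at h1
    exact h1
  · intro h l hl
    obtain ⟨i, hi, rfl⟩ := List.mem_map.1 hl
    rw [map_false, map_true]
    exact h i (List.mem_range.1 hi)

section

variable {ext : List Bool → Finset (List Bool)} (hext : AEC.Adm ext)

include hext in
theorem vw_OW {Y : Lang} {b : ℕ → ℕ} (hmono : Monotone b) (hb : ∀ k, rr b k ≤ 4 * N k) {ω : Lang}
    (hT : PTime (OW ext Y (rr b) ω) (RT b)) (hW : ∀ k, ¬ Wt b k ω) :
    VW (OW ext Y (rr b) ω) b (rh ω) (VT (OW ext Y (rr b) ω) b) (QT (OW ext Y (rr b) ω)) where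
  mono := hmono
  le := hb
  hT := hT
  pV := ptime_VT hT
  pQ := ptime_QT
  hV k y := by
    have hO := OW_clo hext Y (rr b) ω
    rw [VT_iff hmono hb]
    have hRN := hb k
    constructor
    · rintro ⟨h1, h2⟩
      by_contra hne
      refine hW k ⟨y, h1, fun i hi => ?_⟩
      rw [← h2 i hi, hO.right]
      symm
      unfold HW HA tst
      refine Hop_qA_junk fun k' hk' => ?_
      have h3 : k = k' := by
        apply (rr_mono b).injective
        rw [← h1, hk', pre_length]
      subst h3
      exact hne hk'
    · rintro rfl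
      refine ⟨pre_length _ _, fun i hi => ?_⟩
      rw [hO.right]
      have h1 := tst_len (pre (rh ω) (rr b k)) k i
      rw [pre_length] at h1
      have h2 := N_two k
      unfold HW HA
      exact Hop_qA h1.1 (by unfold tst at h1; omega)
  hQ k w hw := by
    have hO := OW_clo hext Y (rr b) ω
    have hRN := hb k
    unfold QT
    simp only
    rw [map_false, hO.right]
    have h1 := qB_len (pre (rh ω) (rr b k)) w
    rw [pre_length] at h1
    have h2 := N_two k
    have h3 : w.length ≤ w.tail.length + 1 := by
      rw [List.length_tail]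
      omega
    unfold HW HA
    refine Hop_qB hw ?_ ?_
    · rw [List.length_append, List.length_replicate]
      omega
    · rw [List.length_append, List.length_replicate]
      omega

end

end Pool.Agent.APT
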